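import Pool.Agent.X196.Lin3

/-!
# The threshold constant of linear soficity is exactly one half, over every field
-/

set_option autoImplicit false

namespace Pool.Agent.Results.MP_7f7a01_al.HalfThreshold

open Module Pool.Agent.X196.Lin

universe u

/-- the normalised rank distance on `GL(n, K)` -/
noncomputable def drank {K : Type u} [Field K] {n : ℕ} (A B : Matrix.GeneralLinearGroup (Fin n) K) :
    ℝ :=
  (((A : Matrix (Fin n) (Fin n) K) - (B : Matrix (Fin n) (Fin n) K)).rank : ℝ) / n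

/-- `G` is `ε`-approximable by the groups `GL(n, K)` with the normalised rank distances -/
def IsApprox (K : Type u) [Field K] (G : Type) [Group G] (ε : ℝ) : Prop :=
  ∀ (F : Finset G) (δ : ℝ), 0 < δ →
    ∃ (n : ℕ) (φ : G → Matrix.GeneralLinearGroup (Fin n) K),
      (∀ g ∈ F, ∀ h ∈ F, drank (φ g * φ h) (φ (g * h)) < δ) ∧
      ∀ g ∈ F, ∀ h ∈ F, g ≠ h → ε - δ < drank (φ g) (φ h)

variable {K : Type u} [Field K]

lemma IsApprox.mono {G : Type} [Group G] {ε ε' : ℝ} (h : ε ≤ ε') (hG : IsApprox K G ε') :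
    IsApprox K G ε := by
  intro F δ hδ
  obtain ⟨n, φ, h1, h2⟩ := hG F δ hδ
  exact ⟨n, φ, h1, fun g hg h' hh hgh => lt_of_le_of_lt (by linarith) (h2 g hg h' hh hgh)⟩

/-- the linear automorphism of an invertible matrix -/
noncomputable def lin {n : ℕ} : Matrix.GeneralLinearGroup (Fin n) K ≃*
    ((Fin n → K) ≃ₗ[K] (Fin n → K)) :=
  Matrix.GeneralLinearGroup.toLin.trans (LinearMap.GeneralLinearGroup.generalLinearEquiv K _)

lemma lin_coe {n : ℕ} (A : Matrix.GeneralLinearGroup (Fin n) K) :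
    (lin A : (Fin n → K) →ₗ[K] (Fin n → K)) = Matrix.mulVecLin (A : Matrix (Fin n) (Fin n) K) := rfl

lemma mulVecLin_sub' {n : ℕ} (M N : Matrix (Fin n) (Fin n) K) :
    (M - N).mulVecLin = M.mulVecLin - N.mulVecLin := by
  apply LinearMap.ext
  intro v
  simp [Matrix.sub_mulVec]

lemma rk_zero' {V W : Type u} [AddCommGroup V] [Module K V] [AddCommGroup W] [Module K W] :
    rk (0 : V →ₗ[K] W) = 0 := by
  unfold rk
  rw [LinearMap.range_zero, finrank_bot]

lemma rank_mul_sub {n : ℕ} (A B C : Matrix.GeneralLinearGroup (Fin n) K) :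
    (((A * B : Matrix.GeneralLinearGroup (Fin n) K) : Matrix (Fin n) (Fin n) K) -
      (C : Matrix (Fin n) (Fin n) K)).rank =
      rk ((lin A : (Fin n → K) →ₗ[K] (Fin n → K)) ∘ₗ (lin B : (Fin n → K) →ₗ[K] (Fin n → K)) -
        (lin C : (Fin n → K) →ₗ[K] (Fin n → K))) := by
  unfold Matrix.rank rk
  rw [lin_coe, lin_coe, lin_coe, ← Matrix.mulVecLin_mul, Units.val_mul, mulVecLin_sub']

lemma rank_sub {n : ℕ} (A B : Matrix.GeneralLinearGroup (Fin n) K) :
    ((A : Matrix (Fin n) (Fin n) K) - (B : Matrix (Fin n) (Fin n) K)).rank =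
      rk ((lin A : (Fin n → K) →ₗ[K] (Fin n → K)) - (lin B : (Fin n → K) →ₗ[K] (Fin n → K))) := by
  unfold Matrix.rank rk
  rw [lin_coe, lin_coe, mulVecLin_sub']

/-- approximations by automorphisms of finite-dimensional spaces suffice -/
lemma approx_of {G : Type} [Group G] {ε : ℝ}
    (H : ∀ (F : Finset G) (δ : ℝ), 0 < δ →
      ∃ (W : Type u) (_ : AddCommGroup W) (_ : Module K W) (_ : FiniteDimensional K W)
        (ψ : G → (W ≃ₗ[K] W)), 0 < finrank K W ∧
        (∀ g ∈ F, ∀ h ∈ F, (rk ((ψ g : W →ₗ[K] W) ∘ₗ (ψ h : W →ₗ[K] W) -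
          (ψ (g * h) : W →ₗ[K] W)) : ℝ) < δ * finrank K W) ∧
        ∀ g ∈ F, ∀ h ∈ F, g ≠ h → (ε - δ) * finrank K W <
          rk ((ψ g : W →ₗ[K] W) - (ψ h : W →ₗ[K] W))) : IsApprox K G ε := by
  intro F δ hδ
  obtain ⟨W, _, _, _, ψ, hW, h1, h2⟩ := H F δ hδ
  set w := finrank K W with hw
  let e : W ≃ₗ[K] (Fin w → K) := (finBasis K W).equivFun
  let E : G → ((Fin w → K) ≃ₗ[K] (Fin w → K)) := fun g => (e.symm.trans (ψ g)).trans e
  have hw0 : (0 : ℝ) < w := by exact_mod_cast hW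
  refine ⟨w, fun g => lin.symm (E g), ?_, ?_⟩
  · intro g hg h hh
    unfold drank
    rw [rank_mul_sub, div_lt_iff₀ hw0, MulEquiv.apply_symm_apply, MulEquiv.apply_symm_apply,
      MulEquiv.apply_symm_apply]
    have h3 : (E g : (Fin w → K) →ₗ[K] (Fin w → K)) ∘ₗ (E h : (Fin w → K) →ₗ[K] (Fin w → K)) -
        (E (g * h) : (Fin w → K) →ₗ[K] (Fin w → K)) =
        (e : W →ₗ[K] (Fin w → K)) ∘ₗ ((ψ g : W →ₗ[K] W) ∘ₗ (ψ h : W →ₗ[K] W) -
          (ψ (g * h) : W →ₗ[K] W)) ∘ₗ (e.symm : (Fin w → K) →ₗ[K] W) := by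
      ext v
      simp [E]
    rw [h3]
    have h4 := (rk_comp_right (e : W →ₗ[K] (Fin w → K)) (((ψ g : W →ₗ[K] W) ∘ₗ (ψ h : W →ₗ[K] W) -
          (ψ (g * h) : W →ₗ[K] W)) ∘ₗ (e.symm : (Fin w → K) →ₗ[K] W))).trans (rk_comp_left _ _)
    exact lt_of_le_of_lt (by exact_mod_cast h4) (h1 g hg h hh)
  · intro g hg h hh hgh
    unfold drank
    rw [rank_sub, lt_div_iff₀ hw0, MulEquiv.apply_symm_apply, MulEquiv.apply_symm_apply]
    have h3 : (ψ g : W →ₗ[K] W) - (ψ h : W →ₗ[K] W) = (e.symm : (Fin w → K) →ₗ[K] W) ∘ₗ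
        ((E g : (Fin w → K) →ₗ[K] (Fin w → K)) - (E h : (Fin w → K) →ₗ[K] (Fin w → K))) ∘ₗ
        (e : W →ₗ[K] (Fin w → K)) := by
      ext v
      simp [E]
    have h4 : rk ((ψ g : W →ₗ[K] W) - (ψ h : W →ₗ[K] W)) ≤
        rk ((E g : (Fin w → K) →ₗ[K] (Fin w → K)) - (E h : (Fin w → K) →ₗ[K] (Fin w → K))) := by
      rw [h3]
      exact (rk_comp_right _ _).trans (rk_comp_left _ _)
    exact lt_of_lt_of_le (h2 g hg h hh hgh) (by exact_mod_cast h4)

/-- **The amplification.** -/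
theorem approx_half {G : Type} [Group G] {ε : ℝ} (hε : 0 < ε) (hG : IsApprox K G ε) :
    IsApprox K G (1 / 2) := by
  apply approx_of
  intro F δ hδ
  by_cases hF : ∀ g ∈ F, ∀ h ∈ F, g = h
  · refine ⟨K, inferInstance, inferInstance, inferInstance, fun _ => LinearEquiv.refl K K, ?_, ?_, ?_⟩
    · rw [Module.finrank_self]
      exact one_pos
    · intro g _ h _
      have h1 : ((LinearEquiv.refl K K : K →ₗ[K] K) ∘ₗ (LinearEquiv.refl K K : K →ₗ[K] K) -
        (LinearEquiv.refl K K : K →ₗ[K] K)) = 0 := by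
        ext
        simp
      rw [h1, rk_zero', Module.finrank_self]
      simpa using hδ
    · intro g hg h hh hgh
      exact absurd (hF g hg h hh) hgh
  push Not at hF
  obtain ⟨g0, hg0, h0, hh0, hgh0⟩ := hF
  set ε1 : ℝ := min ε 1 with hε1
  have hε1pos : 0 < ε1 := lt_min hε one_pos
  have hε1le : ε1 ≤ 1 := min_le_right _ _
  set r : ℝ := ε1 / 4 with hr
  have hr0 : 0 < r := by positivity
  obtain ⟨m, hm⟩ := exists_pow_lt_of_lt_one hδ (show 1 - r < 1 by linarith)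
  set δ0 : ℝ := min (ε1 / 2) (δ / (m + 1)) with hδ0
  have hm1 : (0 : ℝ) < (m : ℝ) + 1 := by positivity
  have hδ0pos : 0 < δ0 := lt_min (by linarith) (by positivity)
  have hδ0a : δ0 ≤ ε1 / 2 := min_le_left _ _
  have hδ0b : δ0 ≤ δ / (m + 1) := min_le_right _ _
  obtain ⟨n, φ, h1, h2⟩ := (hG.mono (min_le_left ε 1)) F δ0 hδ0pos
  have hn : (0 : ℝ) < n := by
    rcases Nat.eq_zero_or_pos n with h | h
    · exfalso
      have h3 := h2 g0 hg0 h0 hh0 hgh0
      unfold drank at h3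
      subst h
      rw [Nat.cast_zero, div_zero] at h3
      linarith
    · exact_mod_cast h
  -- the direct sum with the trivial representation
  let V : Type u := (Fin n → K) × (Fin n → K)
  let φ' : G → (V ≃ₗ[K] V) := fun g => (lin (φ g)).prodCongr (LinearEquiv.refl K (Fin n → K))
  have hV : finrank K V = n + n := by
    show finrank K ((Fin n → K) × (Fin n → K)) = n + n
    rw [Module.finrank_prod, Module.finrank_fin_fun]
  have hV' : (finrank K V : ℝ) = n + n := by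
    rw [hV]
    push_cast
    ring
  have hV0 : 0 < finrank K V := by
    rw [hV]
    have : 0 < n := by exact_mod_cast hn
    omega
  have hφ1 : ∀ g ∈ F, ∀ h ∈ F, (rk ((φ' g : V →ₗ[K] V) ∘ₗ (φ' h : V →ₗ[K] V) -
      (φ' (g * h) : V →ₗ[K] V)) : ℝ) ≤ δ0 / 2 * finrank K V := by
    intro g hg h hh
    have h3 : (φ' g : V →ₗ[K] V) ∘ₗ (φ' h : V →ₗ[K] V) - (φ' (g * h) : V →ₗ[K] V) =
        (LinearMap.inl K (Fin n → K) (Fin n → K)) ∘ₗ
        (((lin (φ g) : (Fin n → K) →ₗ[K] (Fin n → K)) ∘ₗ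
          (lin (φ h) : (Fin n → K) →ₗ[K] (Fin n → K)) -
          (lin (φ (g * h)) : (Fin n → K) →ₗ[K] (Fin n → K))) ∘ₗ
        (LinearMap.fst K (Fin n → K) (Fin n → K))) := by
      apply LinearMap.ext
      rintro ⟨x, y⟩
      apply Prod.ext
      · simp [φ', V]
      · simp [φ', V]
    have h4 : rk ((φ' g : V →ₗ[K] V) ∘ₗ (φ' h : V →ₗ[K] V) - (φ' (g * h) : V →ₗ[K] V)) ≤
        rk ((lin (φ g) : (Fin n → K) →ₗ[K] (Fin n → K)) ∘ₗ
          (lin (φ h) : (Fin n → K) →ₗ[K] (Fin n → K)) -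
          (lin (φ (g * h)) : (Fin n → K) →ₗ[K] (Fin n → K))) := by
      rw [h3]
      exact (rk_comp_right _ _).trans (rk_comp_left _ _)
    have h5 := h1 g hg h hh
    unfold drank at h5
    rw [rank_mul_sub, div_lt_iff₀ hn] at h5
    rw [hV']
    have h6 : (rk ((φ' g : V →ₗ[K] V) ∘ₗ (φ' h : V →ₗ[K] V) - (φ' (g * h) : V →ₗ[K] V)) : ℝ) ≤
        rk ((lin (φ g) : (Fin n → K) →ₗ[K] (Fin n → K)) ∘ₗ
          (lin (φ h) : (Fin n → K) →ₗ[K] (Fin n → K)) -
          (lin (φ (g * h)) : (Fin n → K) →ₗ[K] (Fin n → K))) := by exact_mod_cast h4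
    linarith
  have hφ2 : ∀ g ∈ F, ∀ h ∈ F, g ≠ h → ∀ μ : K, r * finrank K V ≤
      rk (((φ' h).symm : V →ₗ[K] V) ∘ₗ (φ' g : V →ₗ[K] V) - μ • LinearMap.id) := by
    intro g hg h hh hgh μ
    rw [hV']
    by_cases hμ : μ = 1
    · have h3 : (lin (φ g) : (Fin n → K) →ₗ[K] (Fin n → K)) -
          (lin (φ h) : (Fin n → K) →ₗ[K] (Fin n → K)) =
          (lin (φ h) : (Fin n → K) →ₗ[K] (Fin n → K)) ∘ₗ
          ((LinearMap.fst K (Fin n → K) (Fin n → K)) ∘ₗ
          (((φ' h).symm : V →ₗ[K] V) ∘ₗ (φ' g : V →ₗ[K] V) - μ • LinearMap.id) ∘ₗ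
          (LinearMap.inl K (Fin n → K) (Fin n → K))) := by
        rw [hμ]
        apply LinearMap.ext
        intro x
        simp [φ', V]
      have h4 : rk ((lin (φ g) : (Fin n → K) →ₗ[K] (Fin n → K)) -
          (lin (φ h) : (Fin n → K) →ₗ[K] (Fin n → K))) ≤
          rk (((φ' h).symm : V →ₗ[K] V) ∘ₗ (φ' g : V →ₗ[K] V) - μ • LinearMap.id) := by
        rw [h3]
        exact (rk_comp_right _ _).trans ((rk_comp_right _ _).trans (rk_comp_left _ _))
      have h5 := h2 g hg h hh hgh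
      unfold drank at h5
      rw [rank_sub, lt_div_iff₀ hn] at h5
      have h6 : (rk ((lin (φ g) : (Fin n → K) →ₗ[K] (Fin n → K)) -
          (lin (φ h) : (Fin n → K) →ₗ[K] (Fin n → K))) : ℝ) ≤
          rk (((φ' h).symm : V →ₗ[K] V) ∘ₗ (φ' g : V →ₗ[K] V) - μ • LinearMap.id) := by
        exact_mod_cast h4
      refine le_trans ?_ (h5.le.trans h6)
      rw [hr]
      nlinarith
    · have h3 : (1 - μ) • (LinearMap.id : (Fin n → K) →ₗ[K] (Fin n → K)) =
          (LinearMap.snd K (Fin n → K) (Fin n → K)) ∘ₗ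
          (((φ' h).symm : V →ₗ[K] V) ∘ₗ (φ' g : V →ₗ[K] V) - μ • LinearMap.id) ∘ₗ
          (LinearMap.inr K (Fin n → K) (Fin n → K)) := by
        apply LinearMap.ext
        intro x
        simp [φ', V, sub_smul]
      have h4 : rk ((1 - μ) • (LinearMap.id : (Fin n → K) →ₗ[K] (Fin n → K))) ≤
          rk (((φ' h).symm : V →ₗ[K] V) ∘ₗ (φ' g : V →ₗ[K] V) - μ • LinearMap.id) := by
        rw [h3]
        exact (rk_comp_right _ _).trans (rk_comp_left _ _)
      have h5 : rk ((1 - μ) • (LinearMap.id : (Fin n → K) →ₗ[K] (Fin n → K))) = n := by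
        unfold rk
        rw [LinearMap.range_smul _ _ (sub_ne_zero.2 (Ne.symm hμ)), LinearMap.range_id, finrank_top,
          Module.finrank_fin_fun]
      rw [h5] at h4
      have h6 : (n : ℝ) ≤
          rk (((φ' h).symm : V →ₗ[K] V) ∘ₗ (φ' g : V →ₗ[K] V) - μ • LinearMap.id) := by
        exact_mod_cast h4
      refine le_trans ?_ h6
      rw [hr]
      nlinarith
  obtain ⟨W, i1, i2, i3, ψ, hW, h3, h4⟩ := amplify F φ' (δ0 / 2) r hV0 hφ1 hφ2 m
  refine ⟨W, i1, i2, i3, ψ, hW, ?_, ?_⟩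
  · intro g hg h hh
    have hW0 : (0 : ℝ) < finrank K W := by exact_mod_cast hW
    refine lt_of_le_of_lt (h3 g hg h hh) ?_
    refine mul_lt_mul_of_pos_right ?_ hW0
    have h5 : (m : ℝ) * (δ0 / 2) ≤ m * (δ / (m + 1) / 2) :=
      mul_le_mul_of_nonneg_left (by linarith) (Nat.cast_nonneg m)
    refine lt_of_le_of_lt h5 ?_
    have h6 : (m : ℝ) * (δ / (m + 1) / 2) = δ * ((m / (m + 1)) / 2) := by ring
    rw [h6]
    have h7 : (m : ℝ) / (m + 1) ≤ 1 := by
      rw [div_le_one hm1]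
      linarith
    nlinarith
  · intro g hg h hh hgh
    have hW0 : (0 : ℝ) < finrank K W := by exact_mod_cast hW
    have h5 := h4 g hg h hh hgh 1
    have h6 := rk_add_ker (((ψ g).symm : W →ₗ[K] W) ∘ₗ (ψ h : W →ₗ[K] W) -
      (1 : K) • LinearMap.id)
    have h7 : rk (((ψ g).symm : W →ₗ[K] W) ∘ₗ (ψ h : W →ₗ[K] W) - (1 : K) • LinearMap.id) ≤
        rk ((ψ g : W →ₗ[K] W) - (ψ h : W →ₗ[K] W)) := by
      have h8 : ((ψ g).symm : W →ₗ[K] W) ∘ₗ (ψ h : W →ₗ[K] W) - (1 : K) • LinearMap.id =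
          -(((ψ g).symm : W →ₗ[K] W) ∘ₗ ((ψ g : W →ₗ[K] W) - (ψ h : W →ₗ[K] W))) := by
        apply LinearMap.ext
        intro x
        simp
      rw [h8, rk_neg]
      exact rk_comp_right _ _
    have h6' : (rk (((ψ g).symm : W →ₗ[K] W) ∘ₗ (ψ h : W →ₗ[K] W) -
      (1 : K) • LinearMap.id) : ℝ) + finrank K (LinearMap.ker (((ψ g).symm : W →ₗ[K] W) ∘ₗ
      (ψ h : W →ₗ[K] W) - (1 : K) • LinearMap.id)) = finrank K W := by exact_mod_cast h6
    have h7' : (rk (((ψ g).symm : W →ₗ[K] W) ∘ₗ (ψ h : W →ₗ[K] W) - (1 : K) • LinearMap.id) : ℝ) ≤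
        rk ((ψ g : W →ₗ[K] W) - (ψ h : W →ₗ[K] W)) := by exact_mod_cast h7
    nlinarith

/-- every finite group is approximable with some positive constant -/
lemma approx_finite (K : Type u) [Field K] (G : Type) [Group G] [Finite G] :
    ∃ ε : ℝ, 0 < ε ∧ IsApprox K G ε := by
  classical
  have : Fintype G := Fintype.ofFinite G
  have hcard : (0 : ℝ) < Fintype.card G := by exact_mod_cast Fintype.card_pos
  have hW : finrank K (G → K) = Fintype.card G := Module.finrank_fintype_fun_eq_card K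
  refine ⟨1 / Fintype.card G, by positivity, ?_⟩
  apply approx_of
  intro F δ hδ
  refine ⟨G → K, inferInstance, inferInstance, inferInstance,
    fun g => LinearEquiv.funCongrLeft K K (Equiv.mulLeft g⁻¹), ?_, ?_, ?_⟩
  · rw [hW]
    exact Fintype.card_pos
  · intro g _ h _
    have h1 : (LinearEquiv.funCongrLeft K K (Equiv.mulLeft g⁻¹) : (G → K) →ₗ[K] (G → K)) ∘ₗ
        (LinearEquiv.funCongrLeft K K (Equiv.mulLeft h⁻¹) : (G → K) →ₗ[K] (G → K)) -
        (LinearEquiv.funCongrLeft K K (Equiv.mulLeft (g * h)⁻¹) : (G → K) →ₗ[K] (G → K)) = 0 := by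
      rw [sub_eq_zero]
      apply LinearMap.ext
      intro f
      funext x
      show f (h⁻¹ * (g⁻¹ * x)) = f ((g * h)⁻¹ * x)
      rw [mul_inv_rev, mul_assoc]
    rw [h1, hW]
    rw [rk_zero', Nat.cast_zero]
    positivity
  · intro g _ h _ hgh
    rw [hW]
    have h1 : 1 ≤ rk ((LinearEquiv.funCongrLeft K K (Equiv.mulLeft g⁻¹) : (G → K) →ₗ[K] (G → K)) -
        (LinearEquiv.funCongrLeft K K (Equiv.mulLeft h⁻¹) : (G → K) →ₗ[K] (G → K))) := by
      rw [Nat.one_le_iff_ne_zero]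
      intro h2
      unfold rk at h2
      rw [Submodule.finrank_eq_zero, LinearMap.range_eq_bot, sub_eq_zero] at h2
      have h3 := congrFun (LinearMap.congr_fun h2 (Pi.single 1 1)) g
      have h4 : (Pi.single 1 1 : G → K) (g⁻¹ * g) = (Pi.single 1 1 : G → K) (h⁻¹ * g) := h3
      rw [inv_mul_cancel, Pi.single_eq_same, Pi.single_eq_of_ne] at h4
      · exact one_ne_zero h4
      · intro h5
        exact hgh (inv_mul_eq_one.1 h5).symm
    have h2 : (1 : ℝ) ≤ rk ((LinearEquiv.funCongrLeft K K (Equiv.mulLeft g⁻¹) :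
        (G → K) →ₗ[K] (G → K)) -
        (LinearEquiv.funCongrLeft K K (Equiv.mulLeft h⁻¹) : (G → K) →ₗ[K] (G → K))) := by
      exact_mod_cast h1
    have h3 : (1 / Fintype.card G - δ) * Fintype.card G = 1 - δ * Fintype.card G := by
      field_simp
    rw [h3]
    have h4 : 0 < δ * Fintype.card G := by positivity
    linarith

/-- the upper bound for finite groups of exponent two -/
lemma not_approx {G : Type} [Group G] [Fintype G] (hG : ∀ g : G, g * g = 1) {ε : ℝ}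
    (hε : (Fintype.card G : ℝ) / 2 < (Fintype.card G - 1) * ε) : ¬ IsApprox K G ε := by
  classical
  intro hA
  set N : ℝ := ((Fintype.card G : ℕ) : ℝ) with hN
  have hN1 : 1 ≤ N := by
    rw [hN]
    exact_mod_cast (Fintype.card_pos : 0 < Fintype.card G)
  set η : ℝ := (N - 1) * ε - N / 2 with hη
  have hη0 : 0 < η := by linarith
  have hpos : 0 < N ^ 3 + N := by positivity
  set δ : ℝ := η / (N ^ 3 + N) with hδ
  have hδ0 : 0 < δ := by positivity
  obtain ⟨n, φ, h1, h2⟩ := hA Finset.univ δ hδ0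
  have hε0 : N - 1 ≠ 0 := by
    intro h
    rw [h] at hε
    linarith
  have hcard : 1 < Fintype.card G := by
    have : (1 : ℝ) < N := lt_of_le_of_ne hN1 (fun h => hε0 (by linarith))
    rw [hN] at this
    exact_mod_cast this
  have hn : (0 : ℝ) < n := by
    rcases Nat.eq_zero_or_pos n with h | h
    · exfalso
      obtain ⟨g, h', hgh⟩ := Fintype.one_lt_card_iff.1 hcard
      have h3 := h2 g (Finset.mem_univ _) h' (Finset.mem_univ _) hgh
      unfold drank at h3
      subst h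
      rw [Nat.cast_zero, div_zero] at h3
      have h4 : δ * (N ^ 3 + N) = η := by
        rw [hδ]
        field_simp
      nlinarith [pow_pos (lt_of_lt_of_le one_pos hN1) 3]
    · exact_mod_cast h
  have h3 := sum_rk_le hG (fun g => lin (φ g))
  have h4 : ∀ i : G × G, (rk ((lin (φ i.1) : (Fin n → K) →ₗ[K] (Fin n → K)) ∘ₗ
      (lin (φ i.2) : (Fin n → K) →ₗ[K] (Fin n → K)) -
      (lin (φ (i.1 * i.2)) : (Fin n → K) →ₗ[K] (Fin n → K))) : ℝ) ≤ δ * n := by
    intro i
    have h5 := h1 i.1 (Finset.mem_univ _) i.2 (Finset.mem_univ _)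
    unfold drank at h5
    rw [rank_mul_sub, div_lt_iff₀ hn] at h5
    exact h5.le
  have h5 : ∀ g ∈ (Finset.univ : Finset G).erase 1, (ε - δ) * n ≤
      rk ((lin (φ g) : (Fin n → K) →ₗ[K] (Fin n → K)) -
        (lin (φ 1) : (Fin n → K) →ₗ[K] (Fin n → K))) := by
    intro g hg
    have h6 := h2 g (Finset.mem_univ _) 1 (Finset.mem_univ _) (Finset.ne_of_mem_erase hg)
    unfold drank at h6
    rw [rank_sub, lt_div_iff₀ hn] at h6
    exact h6.le
  have h6 := Finset.sum_le_sum h5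
  rw [Finset.sum_const, nsmul_eq_mul, Finset.card_erase_of_mem (Finset.mem_univ _),
    Finset.card_univ, Nat.cast_sub hcard.le, Nat.cast_one, ← hN] at h6
  have h7 : ∑ g ∈ (Finset.univ : Finset G).erase 1,
      (rk ((lin (φ g) : (Fin n → K) →ₗ[K] (Fin n → K)) -
        (lin (φ 1) : (Fin n → K) →ₗ[K] (Fin n → K))) : ℝ) ≤
      ∑ g : G, (rk ((lin (φ g) : (Fin n → K) →ₗ[K] (Fin n → K)) -
        (lin (φ 1) : (Fin n → K) →ₗ[K] (Fin n → K))) : ℝ) :=
    Finset.sum_le_sum_of_subset_of_nonneg (Finset.erase_subset _ _) fun _ _ _ => Nat.cast_nonneg _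
  have h8 := Finset.sum_le_sum fun (i : G × G) (_ : i ∈ Finset.univ) => h4 i
  rw [Finset.sum_const, nsmul_eq_mul, Finset.card_univ, Fintype.card_prod, Nat.cast_mul, ← hN] at h8
  have h3' : 2 * ∑ g : G, (rk ((lin (φ g) : (Fin n → K) →ₗ[K] (Fin n → K)) -
        (lin (φ 1) : (Fin n → K) →ₗ[K] (Fin n → K))) : ℝ) ≤ N * n + 2 * N *
      ∑ i : G × G, (rk ((lin (φ i.1) : (Fin n → K) →ₗ[K] (Fin n → K)) ∘ₗ
      (lin (φ i.2) : (Fin n → K) →ₗ[K] (Fin n → K)) -
      (lin (φ (i.1 * i.2)) : (Fin n → K) →ₗ[K] (Fin n → K))) : ℝ) := by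
    rw [Module.finrank_fin_fun] at h3
    rw [hN]
    exact_mod_cast h3
  have h9 : 2 * ((N - 1) * ((ε - δ) * n)) ≤ N * n + 2 * N * (N * N * (δ * n)) := by
    have h10 : 2 * N * ∑ i : G × G, (rk ((lin (φ i.1) : (Fin n → K) →ₗ[K] (Fin n → K)) ∘ₗ
      (lin (φ i.2) : (Fin n → K) →ₗ[K] (Fin n → K)) -
      (lin (φ (i.1 * i.2)) : (Fin n → K) →ₗ[K] (Fin n → K))) : ℝ) ≤
        2 * N * (N * N * (δ * n)) := mul_le_mul_of_nonneg_left h8 (by linarith)
    linarith
  have h10 : 2 * ((N - 1) * (ε - δ)) ≤ N + 2 * N * (N * N * δ) := by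
    have h11 : (2 * ((N - 1) * (ε - δ))) * n ≤ (N + 2 * N * (N * N * δ)) * n := by linarith
    exact le_of_mul_le_mul_right h11 hn
  have h11 : δ * (N ^ 3 + N) = η := by
    rw [hδ]
    field_simp
  nlinarith

/-- **Theorem.** Let `K` be a field. For `0 < ε ≤ 1/2` the `ε`-approximable groups are exactly the
linear sofic groups (the `1/4`-approximable ones); for `ε > 1/2` there is a finite elementary
abelian two-group, which is linear sofic (even `1/2`-approximable), but not `ε`-approximable. -/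
theorem result (K : Type u) [Field K] :
    (∀ ε : ℝ, 0 < ε → ε ≤ 1 / 2 → ∀ (G : Type) [Group G],
      (IsApprox K G ε ↔ IsApprox K G (1 / 4))) ∧
    ∀ ε : ℝ, 1 / 2 < ε → ∃ (G : Type) (_ : Group G), Finite G ∧ (∀ g : G, g * g = 1) ∧
      IsApprox K G (1 / 4) ∧ IsApprox K G (1 / 2) ∧ ¬ IsApprox K G ε := by
  constructor
  · intro ε hε hε2 G _
    constructor
    · intro h
      exact (approx_half hε h).mono (by norm_num)
    · intro h
      exact (approx_half (by norm_num) h).mono hε2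
  · intro ε hε
    obtain ⟨k, hk⟩ := exists_nat_gt (ε / (ε - 1 / 2))
    have hk2 : (k : ℝ) < 2 ^ k := by exact_mod_cast Nat.lt_two_pow_self
    have hcard : Fintype.card (Multiplicative (Fin k → ZMod 2)) = 2 ^ k := by
      have h1 : Fintype.card (Fin k → ZMod 2) = 2 ^ k := by
        rw [Fintype.card_fun, ZMod.card, Fintype.card_fin]
      rw [← h1]
      exact Fintype.card_congr Multiplicative.toAdd
    have hG : ∀ g : Multiplicative (Fin k → ZMod 2), g * g = 1 := by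
      intro g
      apply Multiplicative.toAdd.injective
      funext i
      show (Multiplicative.toAdd g i) + (Multiplicative.toAdd g i) = 0
      exact CharTwo.add_self_eq_zero _
    obtain ⟨c, hc, hcG⟩ := approx_finite K (Multiplicative (Fin k → ZMod 2))
    have h12 := approx_half hc hcG
    refine ⟨Multiplicative (Fin k → ZMod 2), inferInstance, inferInstance, hG, h12.mono (by norm_num), h12, not_approx hG ?_⟩
    rw [hcard]
    push_cast
    have h1 : 0 < ε - 1 / 2 := by linarith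
    rw [div_lt_iff₀ h1] at hk
    nlinarith

end Pool.Agent.Results.MP_7f7a01_al.HalfThreshold
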